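import Pool.Agent.Y301.TH.Struct

set_option autoImplicit false
set_option linter.unusedSectionVars false

/-!
Consequences of the universal triangulation inequality: concave comparison, arbitrary families.
-/

namespace Pool.Agent.Y301.TH

open MeasureTheory Set Filter Topology Pool.Agent.Helper717.Hull1 Pool.Agent.Helper717.Hull3
  Pool.Agent.Helper717.Hull6
open scoped ENNReal NNReal

/-- Jensen's inequality for multisets. -/
lemma jensen (φ : ℝ → ℝ) (hφ : ConcaveOn ℝ (Set.Ici 0) φ) (s : Multiset ℝ) :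
    s ≠ 0 → (∀ a ∈ s, 0 ≤ a) →
    (s.map φ).sum ≤ Multiset.card s * φ (s.sum / Multiset.card s) := by
  induction s using Multiset.induction with
  | empty => intro h; exact absurd rfl h
  | cons a s ih =>
    intro _ hpos
    by_cases hs : s = 0
    · subst hs
      simp
    · have h1 := ih hs (fun b hb => hpos b (Multiset.mem_cons_of_mem hb))
      have ha : 0 ≤ a := hpos a (Multiset.mem_cons_self _ _)
      have hS : 0 ≤ s.sum := Multiset.sum_nonneg (fun b hb => hpos b (Multiset.mem_cons_of_mem hb))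
      have hn : (0 : ℝ) < Multiset.card s := by
        exact_mod_cast Multiset.card_pos.2 hs
      set n : ℝ := (Multiset.card s : ℝ) with hnd
      have hdiv : 0 ≤ s.sum / n := by positivity
      have ha' : (0 : ℝ) ≤ 1 / (n + 1) := by positivity
      have hb' : (0 : ℝ) ≤ n / (n + 1) := by positivity
      have hab : 1 / (n + 1) + n / (n + 1) = 1 := by field_simp; ring
      have h2 := hφ.2 (Set.mem_Ici.2 ha) (Set.mem_Ici.2 hdiv) ha' hb' hab
      simp only [smul_eq_mul] at h2
      have h3 : 1 / (n + 1) * a + n / (n + 1) * (s.sum / n) = (a + s.sum) / (n + 1) := by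
        field_simp
      rw [h3] at h2
      rw [Multiset.map_cons, Multiset.sum_cons, Multiset.sum_cons, Multiset.card_cons]
      push_cast
      rw [← hnd]
      have h4 := mul_le_mul_of_nonneg_left h2 (by positivity : (0 : ℝ) ≤ n + 1)
      have h5 : (n + 1) * (1 / (n + 1) * φ a + n / (n + 1) * φ (s.sum / n)) =
          φ a + n * φ (s.sum / n) := by field_simp
      rw [h5] at h4
      linarith

/-- Jensen's inequality with a bound for the number of terms. -/
lemma jensen_le (φ : ℝ → ℝ) (hφ : ConcaveOn ℝ (Set.Ici 0) φ) (hm : MonotoneOn φ (Set.Ici 0))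
    (h0 : 0 ≤ φ 0) (s : Multiset ℝ) (N : ℕ) (hN : 1 ≤ N) (hs : Multiset.card s ≤ N)
    (hpos : ∀ a ∈ s, 0 ≤ a) (V : ℝ) (hV : s.sum ≤ V) :
    (s.map φ).sum ≤ N * φ (V / N) := by
  have hsum : 0 ≤ s.sum := Multiset.sum_nonneg hpos
  set s' := s + Multiset.replicate (N - Multiset.card s) 0 with hs'
  have hcard : Multiset.card s' = N := by
    rw [hs', Multiset.card_add, Multiset.card_replicate]; omega
  have hne : s' ≠ 0 := by
    intro h
    rw [h] at hcard
    simp at hcard
    omega
  have h1 := jensen φ hφ s' hne (by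
    intro a ha
    rw [hs', Multiset.mem_add] at ha
    rcases ha with h | h
    · exact hpos a h
    · rw [Multiset.eq_of_mem_replicate h])
  have h2 : s'.sum = s.sum := by rw [hs']; simp
  have h3 : (s'.map φ).sum = (s.map φ).sum + (N - Multiset.card s : ℕ) * φ 0 := by
    rw [hs', Multiset.map_add, Multiset.sum_add, Multiset.map_replicate, Multiset.sum_replicate,
      nsmul_eq_mul]
  rw [hcard, h2, h3] at h1
  have hNpos : (0 : ℝ) < N := by exact_mod_cast hN
  have h4 : φ (s.sum / N) ≤ φ (V / N) := hm (Set.mem_Ici.2 (by positivity))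
    (Set.mem_Ici.2 (by have := hsum.trans hV; positivity)) (by gcongr)
  have h5 : (0 : ℝ) ≤ (N - Multiset.card s : ℕ) * φ 0 := by positivity
  have h6 := mul_le_mul_of_nonneg_left h4 hNpos.le
  linarith

variable {ι : Type*}

lemma vol_hull_lt_top [Finite ι] (x : ι → E2) : volume (convexHull ℝ (Set.range x)) < ∞ :=
  ((Set.finite_range x).isCompact_convexHull (𝕜 := ℝ)).measure_lt_top

/-- The universal inequality in terms of real numbers. -/
theorem struct_real [Fintype ι] (x y : ι → E2) :
    ∃ σ : Multiset (ι × ι × ι), Multiset.card σ ≤ Fintype.card ι - 2 ∧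
      (∀ t ∈ σ, t.1 ≠ t.2.1 ∧ t.2.1 ≠ t.2.2 ∧ t.1 ≠ t.2.2) ∧
      (σ.map (ar x)).sum ≤ (volume (convexHull ℝ (Set.range x))).toReal ∧
      (volume (convexHull ℝ (Set.range y))).toReal ≤ (σ.map (ar y)).sum := by
  classical
  obtain ⟨σ, h1, h2, h3, h4⟩ := struct x y
  refine ⟨σ, h1, h2, ?_, ?_⟩
  · exact (ENNReal.ofReal_le_iff_le_toReal (vol_hull_lt_top x).ne).1 h3
  · exact ENNReal.toReal_le_of_le_ofReal (sum_nonneg y σ) h4

/-- Concave comparison. -/
theorem concave [Fintype ι] (hι : 3 ≤ Fintype.card ι) (x y : ι → E2) (φ : ℝ → ℝ)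
    (hφ : ConcaveOn ℝ (Set.Ici 0) φ) (hm : MonotoneOn φ (Set.Ici 0)) (h0 : 0 ≤ φ 0)
    (h : ∀ t : ι × ι × ι, t.1 ≠ t.2.1 → t.2.1 ≠ t.2.2 → t.1 ≠ t.2.2 → ar y t ≤ φ (ar x t)) :
    (volume (convexHull ℝ (Set.range y))).toReal ≤
      (Fintype.card ι - 2 : ℕ) *
        φ ((volume (convexHull ℝ (Set.range x))).toReal / (Fintype.card ι - 2 : ℕ)) := by
  classical
  obtain ⟨σ, h1, h2, h3, h4⟩ := struct_real x y
  refine h4.trans ?_
  have h5 : (σ.map (ar y)).sum ≤ ((σ.map (ar x)).map φ).sum := by
    rw [Multiset.map_map]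
    apply Multiset.sum_map_le_sum_map
    intro t ht
    obtain ⟨a, b, c⟩ := h2 t ht
    exact h t a b c
  refine h5.trans (jensen_le φ hφ hm h0 (σ.map (ar x)) (Fintype.card ι - 2) (by omega)
    (by rw [Multiset.card_map]; exact h1) ?_ _ h3)
  intro a ha
  obtain ⟨t, _, rfl⟩ := Multiset.mem_map.1 ha
  exact ar_nonneg x t

/-- Linear comparison for finite families. -/
theorem linear [Finite ι] (x y : ι → E2) (c : ℝ≥0)
    (h : ∀ t : ι × ι × ι, ar y t ≤ c * ar x t) :
    volume (convexHull ℝ (Set.range y)) ≤ c * volume (convexHull ℝ (Set.range x)) := by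
  classical
  have := Fintype.ofFinite ι
  obtain ⟨σ, h1, h2, h3, h4⟩ := struct x y
  have h5 : (σ.map (ar y)).sum ≤ c * (σ.map (ar x)).sum := by
    rw [← Multiset.sum_map_mul_left]
    exact Multiset.sum_map_le_sum_map _ _ (fun t _ => h t)
  calc volume (convexHull ℝ (Set.range y)) ≤ ENNReal.ofReal ((σ.map (ar y)).sum) := h4
    _ ≤ ENNReal.ofReal (c * (σ.map (ar x)).sum) := ENNReal.ofReal_le_ofReal h5
    _ = c * ENNReal.ofReal ((σ.map (ar x)).sum) := by
      rw [ENNReal.ofReal_mul (NNReal.coe_nonneg c), ENNReal.ofReal_coe_nnreal]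
    _ ≤ _ := by gcongr

/-- compact subsets of the interior of a hull lie in the hull of finitely many points -/
lemma compact_sub (Y : Set E2) (C : Set E2) (hC : IsCompact C)
    (hsub : C ⊆ interior (convexHull ℝ Y)) :
    ∃ T : Finset E2, (T : Set E2) ⊆ Y ∧ C ⊆ convexHull ℝ (T : Set E2) := by
  classical
  have hloc : ∀ z ∈ C, ∃ T : Finset E2, (T : Set E2) ⊆ Y ∧
      z ∈ interior (convexHull ℝ (T : Set E2)) := by
    intro z hz
    obtain ⟨b, hb1, hb2⟩ := exists_mem_interior_convexHull_affineBasis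
      (mem_interior_iff_mem_nhds.1 (hsub hz))
    have hbi : ∀ i, ∃ T : Finset E2, (T : Set E2) ⊆ Y ∧ b i ∈ convexHull ℝ (T : Set E2) := by
      intro i
      have h1 : b i ∈ convexHull ℝ Y := hb2 (subset_convexHull ℝ _ ⟨i, rfl⟩)
      rw [convexHull_eq_union_convexHull_finite_subsets] at h1
      simp only [mem_iUnion, exists_prop] at h1
      exact h1
    choose T hT1 hT2 using hbi
    refine ⟨Finset.univ.biUnion T, ?_, ?_⟩
    · intro p hp
      simp only [Finset.coe_biUnion, mem_iUnion] at hp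
      obtain ⟨i, _, hi⟩ := hp
      exact hT1 i hi
    · refine interior_mono ?_ hb1
      refine convexHull_min ?_ (convex_convexHull ℝ _)
      rintro _ ⟨i, rfl⟩
      refine convexHull_mono ?_ (hT2 i)
      intro p hp
      simp only [Finset.coe_biUnion, mem_iUnion]
      exact ⟨i, Finset.mem_coe.2 (Finset.mem_univ i), hp⟩
  choose! T hT1 hT2 using hloc
  obtain ⟨t, ht1, ht2⟩ := hC.elim_nhds_subcover (fun z => interior (convexHull ℝ (T z : Set E2)))
    (fun z hz => isOpen_interior.mem_nhds (hT2 z hz))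
  refine ⟨t.biUnion T, ?_, ?_⟩
  · intro p hp
    simp only [Finset.coe_biUnion, mem_iUnion] at hp
    obtain ⟨z, hz, hp⟩ := hp
    exact hT1 z (ht1 z hz) hp
  · intro p hp
    obtain ⟨z, hz, hpz⟩ := mem_iUnion₂.1 (ht2 hp)
    refine convexHull_mono ?_ (interior_subset hpz)
    intro q hq
    simp only [Finset.coe_biUnion, mem_iUnion]
    exact ⟨z, hz, hq⟩

/-- Linear comparison for arbitrary families. -/
theorem linear_all (x y : ι → E2) (c : ℝ≥0)
    (h : ∀ t : ι × ι × ι, ar y t ≤ c * ar x t) :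
    volume (convexHull ℝ (Set.range y)) ≤ c * volume (convexHull ℝ (Set.range x)) := by
  classical
  have h1 : volume (convexHull ℝ (Set.range y)) ≤ volume (interior (convexHull ℝ (Set.range y))) := by
    have hfr := (convex_convexHull ℝ (Set.range y)).addHaar_frontier volume
    calc volume (convexHull ℝ (Set.range y))
        ≤ volume (interior (convexHull ℝ (Set.range y)) ∪ frontier (convexHull ℝ (Set.range y))) := by
          refine measure_mono ?_
          intro p hp
          by_cases hi : p ∈ interior (convexHull ℝ (Set.range y))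
          · exact Or.inl hi
          · exact Or.inr ⟨subset_closure hp, hi⟩
      _ ≤ _ := measure_union_le _ _
      _ = _ := by rw [hfr, add_zero]
  refine h1.trans ?_
  rw [isOpen_interior.measure_eq_iSup_isCompact]
  refine iSup_le fun C => iSup_le fun hCs => iSup_le fun hC => ?_
  obtain ⟨T, hT1, hT2⟩ := compact_sub (Set.range y) C hC hCs
  have hex : ∀ p : {p // p ∈ T}, ∃ i : ι, y i = (p : E2) := fun p => hT1 p.2
  choose g hg using hex
  have h2 : (T : Set E2) = Set.range (fun p : {p // p ∈ T} => y (g p)) := by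
    ext q
    constructor
    · intro hq
      exact ⟨⟨q, hq⟩, hg ⟨q, hq⟩⟩
    · rintro ⟨p, rfl⟩
      show y (g p) ∈ (T : Set E2)
      rw [hg p]; exact p.2
  calc volume C ≤ volume (convexHull ℝ (T : Set E2)) := measure_mono hT2
    _ = volume (convexHull ℝ (Set.range (fun p : {p // p ∈ T} => y (g p)))) := by rw [h2]
    _ ≤ c * volume (convexHull ℝ (Set.range (fun p : {p // p ∈ T} => x (g p)))) :=
      linear (fun p : {p // p ∈ T} => x (g p)) (fun p : {p // p ∈ T} => y (g p)) c
        (fun t => h (g t.1, g t.2.1, g t.2.2))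
    _ ≤ c * volume (convexHull ℝ (Set.range x)) := by
      gcongr
      rintro _ ⟨p, rfl⟩
      exact ⟨g p, rfl⟩

end Pool.Agent.Y301.TH
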