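import Pool.Agent.Helper717.Hull6

set_option autoImplicit false
set_option linter.unusedSectionVars false

/-!
Triangulations of the hull of `x` with few selected triangles carrying the area of the hull of `y`.
This refines `Pool.Agent.Helper717.Hull6.exists_good` (same induction over minimal ears of `y`).
-/

namespace Pool.Agent.Y301.TH

open MeasureTheory Set Pool.Agent.Helper717.Hull1 Pool.Agent.Helper717.Hull2
  Pool.Agent.Helper717.Hull3 Pool.Agent.Helper717.Hull4 Pool.Agent.Helper717.Hull5
  Pool.Agent.Helper717.Hull6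
open scoped ENNReal NNReal

variable {ι : Type*} [DecidableEq ι]

/-- A triangulation `τ` of the hull of `x` and a small subfamily `σ` with large total area in `y`. -/
structure Good2 (x y : ι → E2) (S : Finset ι) (τ σ : Multiset (ι × ι × ι)) : Prop where
  mem : ∀ t ∈ τ, t.1 ∈ S ∧ t.2.1 ∈ S ∧ t.2.2 ∈ S ∧ t.1 ≠ t.2.1 ∧ t.2.1 ≠ t.2.2 ∧ t.1 ≠ t.2.2
  area : ENNReal.ofReal ((τ.map (ar x)).sum) ≤ volume (hull x S)
  cover : ∀ q ∈ hull x S, (∀ a ∈ S, ∀ b ∈ S, a ≠ b → orient (x a) (x b) q ≠ 0) →
    ∃ t ∈ τ, q ∈ convexHull ℝ ({x t.1, x t.2.1, x t.2.2} : Set E2)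
  sub : σ ≤ τ
  card : Multiset.card σ ≤ S.card - 2
  ysum : volume (hull y S) ≤ ENNReal.ofReal ((σ.map (ar y)).sum)

/-- Two of the three new triangles gain enough when the new point is outside the triangle. -/
lemma tri_gain2 (a b c p : E2) (e : ℝ) (hT : orient a b c ≠ 0)
    (hp : p ∉ convexHull ℝ ({a, b, c} : Set E2)) (hu : e ≤ |orient a b p|)
    (hv : e ≤ |orient b c p|) (hw : e ≤ |orient c a p|) :
    |orient a b c| + e ≤ |orient a b p| + |orient b c p| ∨
    |orient a b c| + e ≤ |orient b c p| + |orient c a p| ∨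
    |orient a b c| + e ≤ |orient a b p| + |orient c a p| := by
  have hs := or_sum a b c p
  have key : ∀ u v w T : ℝ, u + v + w = T → e ≤ |u| → e ≤ |v| → e ≤ |w| → 0 < T →
      ¬ (0 ≤ u ∧ 0 ≤ v ∧ 0 ≤ w) →
      |T| + e ≤ |u| + |v| ∨ |T| + e ≤ |v| + |w| ∨ |T| + e ≤ |u| + |w| := by
    intro u v w T h hu hv hw hT hn
    rw [abs_of_pos hT]
    have l1 := le_abs_self u
    have l2 := le_abs_self v
    have l3 := le_abs_self w
    by_cases h1 : 0 ≤ u
    · by_cases h2 : 0 ≤ v
      · have h3 : w < 0 := not_le.1 fun h3 => hn ⟨h1, h2, h3⟩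
        left
        rw [abs_of_neg h3] at hw
        linarith
      · have h2 := not_le.1 h2
        right; right
        rw [abs_of_neg h2] at hv
        linarith
    · have h1 := not_le.1 h1
      right; left
      rw [abs_of_neg h1] at hu
      linarith
  rcases lt_or_gt_of_ne hT with h | h
  · have h1 : 0 < orient a c b := by rw [or_swap']; linarith
    rw [tri_perm, tri_iff a c b p h1] at hp
    have e1 : orient a c p = -orient c a p := or_swap _ _ _
    have e2 : orient c b p = -orient b c p := or_swap _ _ _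
    have e3 : orient b a p = -orient a b p := or_swap _ _ _
    rw [e1, e2, e3] at hp
    have := key (-orient a b p) (-orient b c p) (-orient c a p) (-orient a b c) (by linarith)
      (by rwa [abs_neg]) (by rwa [abs_neg]) (by rwa [abs_neg]) (by linarith)
      (fun h => hp ⟨h.2.2, h.2.1, h.1⟩)
    rwa [abs_neg, abs_neg, abs_neg, abs_neg] at this
  · rw [tri_iff a b c p h] at hp
    exact key _ _ _ _ hs hu hv hw h hp

/-- Insertion of an interior point. -/
lemma insert_int (x y : ι → E2) (S : Finset ι) (τ σ : Multiset (ι × ι × ι))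
    (hG : Good2 x y S τ σ)
    (p : ι) (hp : p ∉ S) (hGPx : GP x (insert p S)) (hin : x p ∈ hull x S)
    (hCP : CP y (insert p S)) (e : ℝ) (he : 0 < e)
    (hmin : ∀ i ∈ insert p S, ∀ j ∈ insert p S, ∀ k ∈ insert p S, i ≠ j → j ≠ k → i ≠ k →
      e ≤ |orient (y i) (y j) (y k)|)
    (hear : volume (hull y (insert p S)) ≤ volume (hull y S) + ENNReal.ofReal (e / 2)) :
    ∃ τ' σ', Good2 x y (insert p S) τ' σ' := by
  classical
  have hpi : p ∈ insert p S := Finset.mem_insert_self _ _
  have hins : ∀ s ∈ S, s ∈ insert p S := fun s hs => Finset.mem_insert_of_mem hs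
  have hps : ∀ s ∈ S, s ≠ p := fun s hs h => hp (h ▸ hs)
  obtain ⟨⟨a, b, c⟩, ht, htp⟩ := hG.cover (x p) hin (fun a ha b hb hab =>
    hGPx a (hins a ha) b (hins b hb) p hpi hab (hps b hb) (hps a ha))
  obtain ⟨ha, hb, hc, hab, hbc, hac⟩ := hG.mem _ ht
  simp only at ha hb hc hab hbc hac htp
  have h3S : 3 ≤ S.card := by
    have h1 : ({a, b, c} : Finset ι) ⊆ S := by
      intro s hs
      simp only [Finset.mem_insert, Finset.mem_singleton] at hs
      rcases hs with rfl | rfl | rfl
      · exact ha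
      · exact hb
      · exact hc
    have h2 : ({a, b, c} : Finset ι).card = 3 := Finset.card_eq_three.2 ⟨a, b, c, hab, hac, hbc, rfl⟩
    have := Finset.card_le_card h1
    omega
  have hcardS : (insert p S).card = S.card + 1 := Finset.card_insert_of_notMem hp
  have hTx : orient (x a) (x b) (x c) ≠ 0 := hGPx a (hins a ha) b (hins b hb) c (hins c hc) hab hbc hac
  have hTy : orient (y a) (y b) (y c) ≠ 0 := by
    have := hmin a (hins a ha) b (hins b hb) c (hins c hc) hab hbc hac
    intro h; rw [h, abs_zero] at this; linarith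
  have hux := hGPx a (hins a ha) b (hins b hb) p hpi hab (hps b hb) (hps a ha)
  have hvx := hGPx b (hins b hb) c (hins c hc) p hpi hbc (hps c hc) (hps b hb)
  have hwx := hGPx c (hins c hc) a (hins a ha) p hpi hac.symm (hps a ha) (hps c hc)
  have hτ : τ = (a, b, c) ::ₘ τ.erase (a, b, c) := (Multiset.cons_erase ht).symm
  set ρ := τ.erase (a, b, c) with hρ
  have hxs := tri_split (x a) (x b) (x c) (x p) hTx htp
  have hyg := tri_gain2 (y a) (y b) (y c) (y p) e hTy
    (hCP a (hins a ha) b (hins b hb) c (hins c hc) p hpi (hps a ha).symm (hps b hb).symm (hps c hc).symm)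
    (hmin a (hins a ha) b (hins b hb) p hpi hab (hps b hb) (hps a ha))
    (hmin b (hins b hb) c (hins c hc) p hpi hbc (hps c hc) (hps b hb))
    (hmin c (hins c hc) a (hins a ha) p hpi hac.symm (hps a ha) (hps c hc))
  have hyab := hmin a (hins a ha) b (hins b hb) p hpi hab (hps b hb) (hps a ha)
  have hhull : hull x (insert p S) = hull x S := by
    apply subset_antisymm _ (hull_mono x (Finset.subset_insert _ _))
    unfold hull
    apply convexHull_min _ (convex_convexHull _ _)
    rintro _ ⟨s, hs, rfl⟩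
    have hs' : s ∈ insert p S := by simpa using hs
    rcases Finset.mem_insert.1 hs' with h | h
    · rw [h]; exact hin
    · exact mem_hull x S h
  -- the new selected family
  have hsel : ∃ σ', σ' ≤ (a, b, p) ::ₘ (b, c, p) ::ₘ (c, a, p) ::ₘ ρ ∧
      Multiset.card σ' ≤ Multiset.card σ + 1 ∧
      (σ.map (ar y)).sum + e / 2 ≤ (σ'.map (ar y)).sum := by
    by_cases hσ : (a, b, c) ∈ σ
    · have h1 : σ = (a, b, c) ::ₘ σ.erase (a, b, c) := (Multiset.cons_erase hσ).symm
      have h2 : (σ.map (ar y)).sum = ar y (a, b, c) + ((σ.erase (a, b, c)).map (ar y)).sum := by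
        conv_lhs => rw [h1]
        rw [Multiset.map_cons, Multiset.sum_cons]
      have h3 : Multiset.card σ = Multiset.card (σ.erase (a, b, c)) + 1 := by
        conv_lhs => rw [h1]
        rw [Multiset.card_cons]
      have h4 : σ.erase (a, b, c) ≤ ρ := Multiset.erase_le_erase _ hG.sub
      rcases hyg with h | h | h
      · refine ⟨(a, b, p) ::ₘ (b, c, p) ::ₘ σ.erase (a, b, c), ?_, ?_, ?_⟩
        · refine Multiset.cons_le_cons _ (Multiset.cons_le_cons _ ?_)
          exact h4.trans (Multiset.le_cons_self _ _)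
        · rw [Multiset.card_cons, Multiset.card_cons]; omega
        · rw [h2, Multiset.map_cons, Multiset.map_cons, Multiset.sum_cons, Multiset.sum_cons]
          simp only [ar]
          linarith
      · refine ⟨(b, c, p) ::ₘ (c, a, p) ::ₘ σ.erase (a, b, c), ?_, ?_, ?_⟩
        · exact (Multiset.cons_le_cons _ (Multiset.cons_le_cons _ h4)).trans
            (Multiset.le_cons_self _ _)
        · rw [Multiset.card_cons, Multiset.card_cons]; omega
        · rw [h2, Multiset.map_cons, Multiset.map_cons, Multiset.sum_cons, Multiset.sum_cons]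
          simp only [ar]
          linarith
      · refine ⟨(a, b, p) ::ₘ (c, a, p) ::ₘ σ.erase (a, b, c), ?_, ?_, ?_⟩
        · exact Multiset.cons_le_cons _ ((Multiset.cons_le_cons _ h4).trans
            (Multiset.le_cons_self _ _))
        · rw [Multiset.card_cons, Multiset.card_cons]; omega
        · rw [h2, Multiset.map_cons, Multiset.map_cons, Multiset.sum_cons, Multiset.sum_cons]
          simp only [ar]
          linarith
    · refine ⟨(a, b, p) ::ₘ σ, ?_, ?_, ?_⟩
      · refine Multiset.cons_le_cons _ ?_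
        have h1 : σ ≤ ρ := by
          rw [hρ, ← Multiset.erase_of_notMem hσ]
          exact Multiset.erase_le_erase _ hG.sub
        exact h1.trans ((Multiset.le_cons_self _ _).trans (Multiset.le_cons_self _ _))
      · rw [Multiset.card_cons]
      · rw [Multiset.map_cons, Multiset.sum_cons]
        simp only [ar]
        linarith
  obtain ⟨σ', hσ1, hσ2, hσ3⟩ := hsel
  refine ⟨(a, b, p) ::ₘ (b, c, p) ::ₘ (c, a, p) ::ₘ ρ, σ', ?_, ?_, ?_, hσ1, ?_, ?_⟩
  · intro t ht'
    rw [Multiset.mem_cons, Multiset.mem_cons, Multiset.mem_cons] at ht'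
    rcases ht' with rfl | rfl | rfl | h
    · exact ⟨hins a ha, hins b hb, hpi, hab, hps b hb, hps a ha⟩
    · exact ⟨hins b hb, hins c hc, hpi, hbc, hps c hc, hps b hb⟩
    · exact ⟨hins c hc, hins a ha, hpi, hac.symm, hps a ha, hps c hc⟩
    · have h' : t ∈ τ := by rw [hτ]; exact Multiset.mem_cons_of_mem h
      obtain ⟨m1, m2, m3, m4⟩ := hG.mem t h'
      exact ⟨hins _ m1, hins _ m2, hins _ m3, m4⟩
  · rw [hhull]
    have h1 := hG.area
    rw [hτ, Multiset.map_cons, Multiset.sum_cons] at h1
    rw [Multiset.map_cons, Multiset.map_cons, Multiset.map_cons, Multiset.sum_cons,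
      Multiset.sum_cons, Multiset.sum_cons]
    refine le_trans (le_of_eq ?_) h1
    congr 1
    simp only [ar]
    linarith
  · intro q hq hgen
    rw [hhull] at hq
    obtain ⟨t, ht', hqt⟩ := hG.cover q hq (fun a ha b hb hab => hgen a (hins a ha) b (hins b hb) hab)
    by_cases hteq : t = (a, b, c)
    · rw [hteq] at hqt
      simp only at hqt
      rcases tri_cover _ _ _ _ _ hTx htp hqt hux hvx hwx with h | h | h
      · exact ⟨(a, b, p), by simp, h⟩
      · exact ⟨(b, c, p), by simp, h⟩
      · exact ⟨(c, a, p), by simp, h⟩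
    · refine ⟨t, ?_, hqt⟩
      rw [hτ, Multiset.mem_cons] at ht'
      rcases ht' with h | h
      · exact absurd h hteq
      · exact Multiset.mem_cons_of_mem (Multiset.mem_cons_of_mem (Multiset.mem_cons_of_mem h))
  · have := hG.card
    omega
  · have h1 := hG.ysum
    have h0 := sum_nonneg y σ
    calc volume (hull y (insert p S)) ≤ volume (hull y S) + ENNReal.ofReal (e / 2) := hear
      _ ≤ ENNReal.ofReal ((σ.map (ar y)).sum) + ENNReal.ofReal (e / 2) := by gcongr
      _ = ENNReal.ofReal ((σ.map (ar y)).sum + e / 2) := (ENNReal.ofReal_add h0 (by positivity)).symm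
      _ ≤ _ := ENNReal.ofReal_le_ofReal hσ3

/-- Insertion of an exterior point. -/
lemma insert_ext (x y : ι → E2) (S : Finset ι) (τ σ : Multiset (ι × ι × ι))
    (hG : Good2 x y S τ σ)
    (p : ι) (hp : p ∉ S) (h2 : 2 ≤ S.card) (hGPx : GP x (insert p S)) (hout : x p ∉ hull x S)
    (e : ℝ) (he : 0 < e)
    (hmin : ∀ i ∈ insert p S, ∀ j ∈ insert p S, ∀ k ∈ insert p S, i ≠ j → j ≠ k → i ≠ k →
      e ≤ |orient (y i) (y j) (y k)|)
    (hear : volume (hull y (insert p S)) ≤ volume (hull y S) + ENNReal.ofReal (e / 2)) :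
    ∃ τ' σ', Good2 x y (insert p S) τ' σ' := by
  classical
  have hpi : p ∈ insert p S := Finset.mem_insert_self _ _
  have hins : ∀ s ∈ S, s ∈ insert p S := fun s hs => Finset.mem_insert_of_mem hs
  have hps : ∀ s ∈ S, p ≠ s := fun s hs h => hp (h ▸ hs)
  have hcardS : (insert p S).card = S.card + 1 := Finset.card_insert_of_notMem hp
  set κ : Multiset (ι × ι × ι) := (Vis x S p).val.map fun f => (p, f.2, f.1) with hκ
  have hvis : ∀ f ∈ Vis x S p, f.1 ∈ S ∧ f.2 ∈ S ∧ f.1 ≠ f.2 := by
    intro f hf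
    have := (mem_Vis x S p f.1 f.2).1 hf
    exact ⟨this.1.1, this.1.2, this.2.1⟩
  have hκm : ∀ t ∈ κ, ∃ f ∈ Vis x S p, t = (p, f.2, f.1) := by
    intro t ht
    obtain ⟨f, hf, rfl⟩ := Multiset.mem_map.1 ht
    exact ⟨f, hf, rfl⟩
  have hsum : ∀ z : ι → E2, (κ.map (ar z)).sum = ∑ f ∈ Vis x S p, ar z (p, f.2, f.1) := by
    intro z
    rw [hκ, Multiset.map_map]
    rfl
  obtain ⟨f, hf⟩ := vis_nonempty x S p hp h2 hGPx hout
  obtain ⟨f1, f2, f3⟩ := hvis f hf
  refine ⟨κ + τ, (p, f.2, f.1) ::ₘ σ, ?_, ?_, ?_, ?_, ?_, ?_⟩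
  · intro t ht
    rw [Multiset.mem_add] at ht
    rcases ht with h | h
    · obtain ⟨f, hf, rfl⟩ := hκm t h
      obtain ⟨f1, f2, f3⟩ := hvis f hf
      exact ⟨hpi, hins _ f2, hins _ f1, hps _ f2, f3.symm, hps _ f1⟩
    · obtain ⟨m1, m2, m3, m4⟩ := hG.mem t h
      exact ⟨hins _ m1, hins _ m2, hins _ m3, m4⟩
  · rw [add_comm κ τ, Multiset.map_add, Multiset.sum_add,
      ENNReal.ofReal_add (sum_nonneg x τ) (sum_nonneg x κ), hsum x]
    refine le_trans ?_ (vol_add x S p hp h2 hGPx)
    gcongr
    · exact hG.area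
    · rw [ENNReal.ofReal_sum_of_nonneg (fun f _ => ar_nonneg x _)]
      apply Finset.sum_le_sum
      intro f hf
      obtain ⟨f1, f2, f3⟩ := hvis f hf
      apply le_of_eq
      rw [tri_vol _ _ _ (hGPx p hpi _ (hins _ f2) _ (hins _ f1) (hps _ f2) f3.symm (hps _ f1))]
      rfl
  · intro q hq hgen
    by_cases hqS : q ∈ hull x S
    · obtain ⟨t, ht, hqt⟩ := hG.cover q hqS
        (fun a ha b hb hab => hgen a (hins a ha) b (hins b hb) hab)
      exact ⟨t, Multiset.mem_add.2 (Or.inr ht), hqt⟩
    · have hSne : S.Nonempty := Finset.card_pos.1 (by omega)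
      obtain ⟨a, b, hab, hqt⟩ := factB x S hSne p hGPx q hq hqS (by
        intro s hs h
        apply hgen p hpi s (hins s hs) (hps s hs)
        have : orient (x p) (x s) q = -orient (x p) q (x s) := or_swap' _ _ _
        rw [this, h, neg_zero])
      refine ⟨(p, b, a), Multiset.mem_add.2 (Or.inl ?_), hqt⟩
      exact Multiset.mem_map.2 ⟨(a, b), hab, rfl⟩
  · have h1 : ({(p, f.2, f.1)} : Multiset (ι × ι × ι)) ≤ κ := by
      rw [Multiset.singleton_le]
      exact Multiset.mem_map.2 ⟨f, hf, rfl⟩
    have h3 := add_le_add h1 hG.sub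
    rwa [Multiset.singleton_add] at h3
  · have := hG.card
    rw [Multiset.card_cons]
    omega
  · have h1 := hG.ysum
    have h0 := sum_nonneg y σ
    have hge : e / 2 ≤ ar y (p, f.2, f.1) := by
      have h4 := hmin p hpi _ (hins _ f2) _ (hins _ f1) (hps _ f2) f3.symm (hps _ f1)
      have h5 : ar y (p, f.2, f.1) = |orient (y p) (y f.2) (y f.1)| / 2 := rfl
      linarith
    calc volume (hull y (insert p S)) ≤ volume (hull y S) + ENNReal.ofReal (e / 2) := hear
      _ ≤ ENNReal.ofReal ((σ.map (ar y)).sum) + ENNReal.ofReal (e / 2) := by gcongr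
      _ = ENNReal.ofReal ((σ.map (ar y)).sum + e / 2) := (ENNReal.ofReal_add h0 (by positivity)).symm
      _ ≤ _ := by
        apply ENNReal.ofReal_le_ofReal
        rw [Multiset.map_cons, Multiset.sum_cons]
        linarith

/-- Existence of good pairs of families. -/
lemma exists_good (x y : ι → E2) : ∀ n : ℕ, ∀ S : Finset ι, S.card = n + 2 → GP x S → GP y S →
    CP y S → ∃ τ σ, Good2 x y S τ σ := by
  intro n
  induction n with
  | zero =>
    intro S hcard _ _ hCP
    obtain ⟨a, b, hab, rfl⟩ := Finset.card_eq_two.1 hcard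
    have hline : ∀ z : ι → E2, ∀ q ∈ hull z {a, b}, orient (z a) (z b) q = 0 := by
      intro z q hq
      apply le_antisymm
      · apply hull_nonpos z {a, b} (z a) (z b) _ q hq
        intro s hs
        simp only [Finset.mem_insert, Finset.mem_singleton] at hs
        rcases hs with rfl | rfl
        · rw [or_self3]
        · rw [or_self2]
      · apply hull_nonneg z {a, b} (z a) (z b) _ q hq
        intro s hs
        simp only [Finset.mem_insert, Finset.mem_singleton] at hs
        rcases hs with rfl | rfl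
        · rw [or_self3]
        · rw [or_self2]
    refine ⟨0, 0, ?_, ?_, ?_, le_refl _, ?_, ?_⟩
    · intro t ht; simp at ht
    · simp
    · intro q hq hgen
      exact absurd (hline x q hq) (hgen a (by simp) b (by simp) hab)
    · simp
    · have hyab : y a ≠ y b := by
        intro h
        apply hCP b (by simp) b (by simp) b (by simp) a (by simp) hab hab hab
        rw [h]
        exact subset_convexHull _ _ (by simp)
      have : volume (hull y {a, b}) = 0 :=
        measure_mono_null (fun q hq => hline y q hq) (line_null _ _ hyab)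
      rw [this]; exact zero_le
  | succ n ih =>
    intro S hcard hGPx hGPy hCP
    obtain ⟨e, he, hmin, p, hp, hear⟩ := ear y S hCP hGPy (by omega)
    have hins : insert p (S.erase p) = S := Finset.insert_erase hp
    have hsub : S.erase p ⊆ S := Finset.erase_subset _ _
    obtain ⟨τ, σ, hG⟩ := ih (S.erase p) (by rw [Finset.card_erase_of_mem hp]; omega)
      (fun a ha b hb c hc => hGPx a (hsub ha) b (hsub hb) c (hsub hc))
      (fun a ha b hb c hc => hGPy a (hsub ha) b (hsub hb) c (hsub hc))
      (fun a ha b hb c hc s hs => hCP a (hsub ha) b (hsub hb) c (hsub hc) s (hsub hs))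
    have hpn : p ∉ S.erase p := Finset.notMem_erase _ _
    by_cases hin : x p ∈ hull x (S.erase p)
    · have := insert_int x y (S.erase p) τ σ hG p hpn (by rw [hins]; exact hGPx) hin
        (by rw [hins]; exact hCP) e he (by rw [hins]; exact hmin) (by rw [hins]; exact hear)
      rwa [hins] at this
    · have := insert_ext x y (S.erase p) τ σ hG p hpn (by
        rw [Finset.card_erase_of_mem hp]; omega) (by rw [hins]; exact hGPx) hin e he
        (by rw [hins]; exact hmin) (by rw [hins]; exact hear)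
      rwa [hins] at this

/-- The conclusion for `x` in general position and `y` in convex position: at most `|S| - 2`
triangles. -/
lemma exists_sel (x y : ι → E2) (S : Finset ι) (h2 : 2 ≤ S.card) (hGPx : GP x S) (hGPy : GP y S)
    (hCP : CP y S) : ∃ σ : Multiset (ι × ι × ι), Multiset.card σ ≤ S.card - 2 ∧
      (∀ t ∈ σ, t.1 ∈ S ∧ t.2.1 ∈ S ∧ t.2.2 ∈ S ∧ t.1 ≠ t.2.1 ∧ t.2.1 ≠ t.2.2 ∧ t.1 ≠ t.2.2) ∧
      ENNReal.ofReal ((σ.map (ar x)).sum) ≤ volume (hull x S) ∧
      volume (hull y S) ≤ ENNReal.ofReal ((σ.map (ar y)).sum) := by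
  obtain ⟨τ, σ, hG⟩ := exists_good x y (S.card - 2) S (by omega) hGPx hGPy hCP
  refine ⟨σ, hG.card, fun t ht => hG.mem t (Multiset.mem_of_le hG.sub ht), ?_, hG.ysum⟩
  refine le_trans (ENNReal.ofReal_le_ofReal ?_) hG.area
  obtain ⟨ρ, hρ⟩ := Multiset.le_iff_exists_add.1 hG.sub
  rw [hρ, Multiset.map_add, Multiset.sum_add]
  have := sum_nonneg x ρ
  linarith

end Pool.Agent.Y301.TH
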