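import Pool.Agent.Y301.TH.Good

set_option autoImplicit false
set_option linter.unusedSectionVars false

/-!
The universal triangulation inequality, without general position assumptions.
-/

namespace Pool.Agent.Y301.TH

open MeasureTheory Set Filter Topology Pool.Agent.Helper717.Hull1 Pool.Agent.Helper717.Hull2
  Pool.Agent.Helper717.Hull3 Pool.Agent.Helper717.Hull4 Pool.Agent.Helper717.Hull5
  Pool.Agent.Helper717.Hull6
open scoped ENNReal NNReal

variable {ι : Type*} [DecidableEq ι]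

/-- a quadratic polynomial with nonzero leading coefficient has no small positive zeros -/
lemma quad_ne (o0 o1 o2 : ℝ) (h : o2 ≠ 0) : ∀ᶠ ε : ℝ in 𝓝[>] 0, o0 + ε * o1 + ε ^ 2 * o2 ≠ 0 := by
  by_cases h0 : o0 = 0
  · by_cases h1 : o1 = 0
    · filter_upwards [self_mem_nhdsWithin] with ε hε
      have hε' : (ε : ℝ) ≠ 0 := ne_of_gt hε
      rw [h0, h1]
      simp [hε', h]
    · have hc : ContinuousAt (fun ε : ℝ => o1 + ε * o2) 0 := by fun_prop
      have hev := hc.eventually_ne (y := 0) (by simpa using h1)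
      filter_upwards [self_mem_nhdsWithin, nhdsWithin_le_nhds hev] with ε hε hne
      have hε' : (ε : ℝ) ≠ 0 := ne_of_gt hε
      rw [h0]
      have : (0 : ℝ) + ε * o1 + ε ^ 2 * o2 = ε * (o1 + ε * o2) := by ring
      rw [this]
      exact mul_ne_zero hε' hne
  · have hc : ContinuousAt (fun ε : ℝ => o0 + ε * o1 + ε ^ 2 * o2) 0 := by fun_prop
    exact nhdsWithin_le_nhds (hc.eventually_ne (y := 0) (by simpa using h0))

/-- points on the parabola -/
noncomputable def par [Fintype ι] (i : ι) : E2 :=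
  !₂[((Fintype.equivFin ι i : ℕ) : ℝ), ((Fintype.equivFin ι i : ℕ) : ℝ) ^ 2]

lemma par_ne [Fintype ι] {a b c : ι} (hab : a ≠ b) (hbc : b ≠ c) (hac : a ≠ c) :
    orient (par a) (par b) (par c) ≠ 0 := by
  have hinj : ∀ {i j : ι}, i ≠ j →
      ((Fintype.equivFin ι i : ℕ) : ℝ) - ((Fintype.equivFin ι j : ℕ) : ℝ) ≠ 0 := by
    intro i j hij h
    apply hij
    apply (Fintype.equivFin ι).injective
    apply Fin.ext
    exact_mod_cast sub_eq_zero.1 h
  have h1 := hinj hab
  have h2 := hinj hbc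
  have h3 := hinj hac
  have : orient (par a) (par b) (par c) =
      -((((Fintype.equivFin ι a : ℕ) : ℝ) - ((Fintype.equivFin ι b : ℕ) : ℝ)) *
      (((Fintype.equivFin ι b : ℕ) : ℝ) - ((Fintype.equivFin ι c : ℕ) : ℝ)) *
      (((Fintype.equivFin ι a : ℕ) : ℝ) - ((Fintype.equivFin ι c : ℕ) : ℝ))) := by
    simp only [orient, par, PiLp.toLp_apply, Matrix.cons_val_zero, Matrix.cons_val_one]
    ring
  rw [this]
  exact neg_ne_zero.2 (mul_ne_zero (mul_ne_zero h1 h2) h3)

/-- perturbed points -/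
noncomputable def pert [Fintype ι] (x : ι → E2) (ε : ℝ) : ι → E2 := fun i => x i + ε • par i

lemma orient_pert [Fintype ι] (x : ι → E2) (a b c : ι) : ∃ o1 : ℝ, ∀ ε : ℝ,
    orient (pert x ε a) (pert x ε b) (pert x ε c) =
      orient (x a) (x b) (x c) + ε * o1 + ε ^ 2 * orient (par a) (par b) (par c) := by
  refine ⟨(x b 0 - x a 0) * (par c 1 - par a 1) + (par b 0 - par a 0) * (x c 1 - x a 1) -
    ((x b 1 - x a 1) * (par c 0 - par a 0) + (par b 1 - par a 1) * (x c 0 - x a 0)), fun ε => ?_⟩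
  simp only [orient, pert, PiLp.add_apply, PiLp.smul_apply, smul_eq_mul]
  ring

lemma pert_GP [Fintype ι] (x : ι → E2) (S : Finset ι) : ∀ᶠ ε : ℝ in 𝓝[>] 0, GP (pert x ε) S := by
  have h : ∀ t : ι × ι × ι, ∀ᶠ ε : ℝ in 𝓝[>] 0, t.1 ≠ t.2.1 → t.2.1 ≠ t.2.2 → t.1 ≠ t.2.2 →
      orient (pert x ε t.1) (pert x ε t.2.1) (pert x ε t.2.2) ≠ 0 := by
    intro t
    by_cases ht : t.1 ≠ t.2.1 ∧ t.2.1 ≠ t.2.2 ∧ t.1 ≠ t.2.2
    · obtain ⟨o1, ho⟩ := orient_pert x t.1 t.2.1 t.2.2
      filter_upwards [quad_ne (orient (x t.1) (x t.2.1) (x t.2.2)) o1 _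
        (par_ne ht.1 ht.2.1 ht.2.2)] with ε hε _ _ _
      rw [ho ε]; exact hε
    · exact Eventually.of_forall (fun ε h1 h2 h3 => absurd ⟨h1, h2, h3⟩ ht)
  filter_upwards [eventually_all.2 h] with ε hε a _ b _ c _ hab hbc hac
  exact hε (a, b, c) hab hbc hac

lemma ar_pert_tendsto [Fintype ι] (x : ι → E2) (t : ι × ι × ι) :
    Tendsto (fun ε : ℝ => ar (pert x ε) t) (𝓝[>] 0) (𝓝 (ar x t)) := by
  obtain ⟨o1, ho⟩ := orient_pert x t.1 t.2.1 t.2.2
  have h1 : (fun ε : ℝ => ar (pert x ε) t) = fun ε : ℝ =>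
      |orient (x t.1) (x t.2.1) (x t.2.2) + ε * o1 +
        ε ^ 2 * orient (par t.1) (par t.2.1) (par t.2.2)| / 2 := by
    funext ε
    unfold ar
    rw [ho ε]
  rw [h1]
  have hc : ContinuousAt (fun ε : ℝ => |orient (x t.1) (x t.2.1) (x t.2.2) + ε * o1 +
        ε ^ 2 * orient (par t.1) (par t.2.1) (par t.2.2)| / 2) 0 := by fun_prop
  have h2 := hc.tendsto
  simp only [zero_mul, add_zero, ne_eq, OfNat.ofNat_ne_zero, not_false_eq_true, zero_pow] at h2
  exact h2.mono_left nhdsWithin_le_nhds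

lemma sum_pert_tendsto [Fintype ι] (x : ι → E2) (σ : Multiset (ι × ι × ι)) :
    Tendsto (fun ε : ℝ => (σ.map (ar (pert x ε))).sum) (𝓝[>] 0) (𝓝 ((σ.map (ar x)).sum)) := by
  induction σ using Multiset.induction with
  | empty => simp
  | cons t σ ih =>
    simp only [Multiset.map_cons, Multiset.sum_cons]
    exact (ar_pert_tendsto x t).add ih

/-- the area of the hull is upper semicontinuous -/
lemma hull_pert [Fintype ι] (x : ι → E2) (S : Finset ι) (c : ℝ≥0∞) (hc : volume (hull x S) < c) :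
    ∀ᶠ ε : ℝ in 𝓝[>] 0, volume (hull (pert x ε) S) < c := by
  obtain ⟨M, hM⟩ : ∃ M : ℝ, ∀ i : ι, ‖(par i : E2)‖ ≤ M := by
    refine ⟨∑ i : ι, ‖(par i : E2)‖, fun i => ?_⟩
    exact Finset.single_le_sum (f := fun i : ι => ‖(par i : E2)‖) (fun j _ => norm_nonneg _)
      (Finset.mem_univ i)
  have h1 : Tendsto (fun r : ℝ => volume (Metric.cthickening r (hull x S))) (𝓝 0)
      (𝓝 (volume (hull x S))) := tendsto_measure_cthickening_of_isCompact (hull_compact x S)
  have h2 : Tendsto (fun ε : ℝ => ε * M) (𝓝[>] 0) (𝓝 0) := by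
    have : ContinuousAt (fun ε : ℝ => ε * M) 0 := by fun_prop
    have h3 := this.tendsto
    simp only [zero_mul] at h3
    exact h3.mono_left nhdsWithin_le_nhds
  have h3 := (h1.comp h2).eventually_lt_const hc
  filter_upwards [h3, self_mem_nhdsWithin] with ε hε hpos
  refine lt_of_le_of_lt (measure_mono ?_) hε
  unfold hull
  refine convexHull_min ?_ ((convex_convexHull ℝ _).cthickening _)
  rintro _ ⟨i, hi, rfl⟩
  refine Metric.mem_cthickening_of_dist_le _ (x i) _ _ (subset_convexHull ℝ _ ⟨i, hi, rfl⟩) ?_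
  have hpos' : (0 : ℝ) < ε := hpos
  rw [dist_eq_norm]
  have : pert x ε i - x i = ε • par i := by unfold pert; abel
  rw [this, norm_smul, Real.norm_eq_abs, abs_of_pos hpos']
  exact mul_le_mul_of_nonneg_left (hM i) hpos'.le

/-- multisets of bounded size over a finite type -/
lemma finite_card_le {α : Type*} [Fintype α] [DecidableEq α] (N : ℕ) :
    {σ : Multiset α | Multiset.card σ ≤ N}.Finite := by
  refine Set.Finite.subset (Finset.finite_toSet
    (Multiset.powerset (N • (Finset.univ : Finset α).val)).toFinset) ?_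
  intro σ hσ
  rw [Finset.mem_coe, Multiset.mem_toFinset, Multiset.mem_powerset, Multiset.le_iff_count]
  intro a
  rw [Multiset.count_nsmul, Multiset.count_univ, mul_one]
  exact (Multiset.count_le_card a σ).trans hσ

/-- The conclusion on `S`, without general position of `x`. -/
lemma exists_sel' [Fintype ι] (x y : ι → E2) (S : Finset ι) (h2 : 2 ≤ S.card) (hGPy : GP y S)
    (hCP : CP y S) : ∃ σ : Multiset (ι × ι × ι), Multiset.card σ ≤ S.card - 2 ∧
      (∀ t ∈ σ, t.1 ∈ S ∧ t.2.1 ∈ S ∧ t.2.2 ∈ S ∧ t.1 ≠ t.2.1 ∧ t.2.1 ≠ t.2.2 ∧ t.1 ≠ t.2.2) ∧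
      ENNReal.ofReal ((σ.map (ar x)).sum) ≤ volume (hull x S) ∧
      volume (hull y S) ≤ ENNReal.ofReal ((σ.map (ar y)).sum) := by
  by_contra hcon
  push Not at hcon
  -- for every candidate, the perturbed inequality fails for small `ε`
  have key : ∀ σ ∈ {σ : Multiset (ι × ι × ι) | Multiset.card σ ≤ S.card - 2},
      ∀ᶠ ε : ℝ in 𝓝[>] 0, ¬ ((∀ t ∈ σ, t.1 ∈ S ∧ t.2.1 ∈ S ∧ t.2.2 ∈ S ∧ t.1 ≠ t.2.1 ∧
        t.2.1 ≠ t.2.2 ∧ t.1 ≠ t.2.2) ∧
      ENNReal.ofReal ((σ.map (ar (pert x ε))).sum) ≤ volume (hull (pert x ε) S) ∧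
      volume (hull y S) ≤ ENNReal.ofReal ((σ.map (ar y)).sum)) := by
    intro σ hσ
    by_cases hm : (∀ t ∈ σ, t.1 ∈ S ∧ t.2.1 ∈ S ∧ t.2.2 ∈ S ∧ t.1 ≠ t.2.1 ∧
        t.2.1 ≠ t.2.2 ∧ t.1 ≠ t.2.2)
    · by_cases hx : ENNReal.ofReal ((σ.map (ar x)).sum) ≤ volume (hull x S)
      · have := hcon σ hσ hm hx
        exact Eventually.of_forall (fun ε h => absurd h.2.2 (not_le.2 this))
      · have hx' := not_le.1 hx
        obtain ⟨c, hc1, hc2⟩ := exists_between hx'
        have h1 := hull_pert x S c hc1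
        have h3 : Tendsto (fun ε : ℝ => ENNReal.ofReal ((σ.map (ar (pert x ε))).sum)) (𝓝[>] 0)
            (𝓝 (ENNReal.ofReal ((σ.map (ar x)).sum))) :=
          (ENNReal.continuous_ofReal.tendsto _).comp (sum_pert_tendsto x σ)
        have h4 := h3.eventually_const_lt hc2
        filter_upwards [h1, h4] with ε h5 h6 h
        exact absurd h.2.1 (not_le.2 (h5.trans h6))
    · exact Eventually.of_forall (fun ε h => absurd h.1 hm)
  have hall := (eventually_all_finite (finite_card_le (α := ι × ι × ι) (S.card - 2))).2 key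
  obtain ⟨ε, h1, h3⟩ := (hall.and (pert_GP x S)).exists
  obtain ⟨σ, hσ1, hσ2⟩ := exists_sel (pert x ε) y S h2 h3 hGPy hCP
  exact h1 σ hσ1 hσ2

/-- **Universal triangulation inequality.** -/
theorem struct [Fintype ι] (x y : ι → E2) :
    ∃ σ : Multiset (ι × ι × ι), Multiset.card σ ≤ Fintype.card ι - 2 ∧
      (∀ t ∈ σ, t.1 ≠ t.2.1 ∧ t.2.1 ≠ t.2.2 ∧ t.1 ≠ t.2.2) ∧
      ENNReal.ofReal ((σ.map (ar x)).sum) ≤ volume (convexHull ℝ (Set.range x)) ∧
      volume (convexHull ℝ (Set.range y)) ≤ ENNReal.ofReal ((σ.map (ar y)).sum) := by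
  classical
  have huniv : ∀ z : ι → E2, hull z Finset.univ = convexHull ℝ (Set.range z) := by
    intro z; simp [hull]
  rw [← huniv, ← huniv]
  have hne : (Finset.univ.filter
      (fun S : Finset ι => hull y S = hull y Finset.univ) : Finset (Finset ι)).Nonempty :=
    ⟨Finset.univ, by simp⟩
  obtain ⟨S, hS, hmin⟩ := Finset.exists_min_image _ Finset.card hne
  rw [Finset.mem_filter] at hS
  have hSy := hS.2
  have hCP : CP y S := by
    intro a ha b hb c hc s hs hsa hsb hsc hmem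
    have h1 : hull y (S.erase s) = hull y Finset.univ := by
      rw [← hSy]
      apply subset_antisymm (hull_mono y (Finset.erase_subset _ _))
      apply convexHull_min _ (hull_convex y _)
      rintro _ ⟨r, hr, rfl⟩
      have hr' : r ∈ S := by simpa using hr
      by_cases hrs : r = s
      · rw [hrs]
        exact tri_sub_hull y (S.erase s) (Finset.mem_erase.2 ⟨hsa.symm, ha⟩)
          (Finset.mem_erase.2 ⟨hsb.symm, hb⟩) (Finset.mem_erase.2 ⟨hsc.symm, hc⟩) hmem
      · exact mem_hull y _ (Finset.mem_erase.2 ⟨hrs, hr'⟩)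
    have h2 := hmin (S.erase s) (by rw [Finset.mem_filter]; exact ⟨Finset.mem_univ _, h1⟩)
    have h3 := Finset.card_erase_lt_of_mem hs
    omega
  have hGPy : GP y S := by
    intro a ha b hb c hc hab hbc hac h
    rcases between _ _ _ h with h | h | h
    · exact hCP b hb c hc c hc a ha hab hac hac h
    · exact hCP a ha c hc c hc b hb hab.symm hbc hbc h
    · exact hCP a ha b hb b hb c hc hac.symm hbc.symm hbc.symm h
  rw [← hSy]
  have hcardle : S.card ≤ Fintype.card ι := Finset.card_le_univ S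
  by_cases hcard : 2 ≤ S.card
  · obtain ⟨σ, h1, h2, h3, h4⟩ := exists_sel' x y S hcard hGPy hCP
    refine ⟨σ, by omega, fun t ht => ?_, h3.trans (measure_mono (hull_mono x (Finset.subset_univ _))),
      h4⟩
    obtain ⟨-, -, -, h5⟩ := h2 t ht
    exact h5
  · have hfin : S.card ≤ 1 := by omega
    have hsub : (hull y S).Subsingleton := by
      have h1 : (y '' (S : Set ι)).Subsingleton := by
        rintro _ ⟨a, ha, rfl⟩ _ ⟨b, hb, rfl⟩
        rw [Finset.card_le_one.1 hfin a (by simpa using ha) b (by simpa using hb)]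
      unfold hull
      rcases h1.eq_empty_or_singleton with h | ⟨z, h⟩
      · rw [h, convexHull_empty]; exact Set.subsingleton_empty
      · rw [h, convexHull_singleton]; exact Set.subsingleton_singleton
    have : volume (hull y S) = 0 := hsub.measure_zero _
    refine ⟨0, by simp, by simp, by simp, ?_⟩
    rw [this]; exact zero_le

end Pool.Agent.Y301.TH
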